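import Mathlib
import Pool.Agent.Lib.MP_745574_co.Defs
import Pool.Agent.Lib.MP_745574_co.Proof

/-!
# A strongly ambiguous complex that is not weakly ambiguous

We exhibit a graph (the common 1-skeleton of two explicit, combinatorially different 4-polytopes
with 8 vertices) which is strongly 4-ambiguous and not weakly 4-ambiguous. The point is that the
graph has no nontrivial automorphism, so that any two combinatorial equivalences of it with the
1-skeleton of a 4-polytope coincide. The face lattices are controlled by integer certificates:
a supporting hyperplane for each vertex, each edge and one triangle, and an affine dependence for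
each non-edge and one non-face.
-/

open Set Pool.Agent.Lib.MP_745574_co

namespace Pool.Agent.Results.MP_745574_co.StrongNotWeak

/-- **Main theorem.** There is a `1`-complex which is strongly `4`-ambiguous but not weakly
`4`-ambiguous. -/
theorem result : ∃ (n : ℕ) (C : Set (Set (E n))),
    IsKComplex 1 C ∧ StronglyAmbiguous 1 4 C ∧ ¬ WeaklyAmbiguous 1 4 C :=
  ⟨4, skel 1 (poly (pts VA)), isKComplex_skel goodA, strongly, not_weakly⟩

/-- The question as posed: there are `k`, `d` and a `k`-complex which is strongly `d`-ambiguous
but not weakly `d`-ambiguous. -/
theorem question : ∃ (k d n : ℕ) (C : Set (Set (E n))),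
    IsKComplex k C ∧ StronglyAmbiguous k d C ∧ ¬ WeaklyAmbiguous k d C := by
  obtain ⟨n, C, h⟩ := result
  exact ⟨1, 4, n, C, h⟩

end Pool.Agent.Results.MP_745574_co.StrongNotWeak
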